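import Mathlib.CategoryTheory.Triangulated.TStructure.TruncLTGE
import Mathlib.CategoryTheory.Triangulated.Functor
import Mathlib.CategoryTheory.Idempotents.Basic

/-!
# Descent of t-structures
-/

open CategoryTheory Limits Pretriangulated Triangulated

universe v₁ v₂ v₃ v₄ u₁ u₂ u₃ u₄

namespace Pool.Agent.H255R.TS

section retract

variable {C : Type u₁} [Category.{v₁} C] [Preadditive C] [HasZeroObject C] [HasShift C ℤ]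
  [∀ n : ℤ, (shiftFunctor C n).Additive] [Pretriangulated C]

/-- Truncation triangles of direct summands. -/
lemma trunc_retract [IsIdempotentComplete C] {A N B M : C} {a : A ⟶ N} {b : N ⟶ B}
    {c : B ⟶ A⟦(1 : ℤ)⟧} (hT : Triangle.mk a b c ∈ distTriang C) {i : M ⟶ N} {r : N ⟶ M}
    (hir : i ≫ r = 𝟙 M) (h0 : ∀ f : A ⟶ B, f = 0) (h1 : ∀ f : A ⟶ B⟦(-1 : ℤ)⟧, f = 0) :
    ∃ (A₁ Z : C) (a₁ : A₁ ⟶ M) (b₁ : M ⟶ Z) (c₁ : Z ⟶ A₁⟦(1 : ℤ)⟧),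
      Triangle.mk a₁ b₁ c₁ ∈ distTriang C ∧ (∃ (j : A₁ ⟶ A) (q : A ⟶ A₁), j ≫ q = 𝟙 A₁) ∧
        ∃ (j : Z ⟶ B) (q : B ⟶ Z), j ≫ q = 𝟙 Z := by
  have huniq : ∀ x : A ⟶ A, x ≫ a = 0 → x = 0 := by
    intro x hx
    obtain ⟨g, hg⟩ := Triangle.coyoneda_exact₂ _ (inv_rot_of_distTriang _ hT) x hx
    have hg0 : g = 0 := h1 g
    rw [hg, hg0, zero_comp]
    rfl
  obtain ⟨eA, heA⟩ : ∃ eA : A ⟶ A, a ≫ r ≫ i = eA ≫ a := by
    obtain ⟨g, hg⟩ := Triangle.coyoneda_exact₂ _ hT (a ≫ r ≫ i) (h0 _)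
    exact ⟨g, hg⟩
  have hidem : eA ≫ eA = eA := by
    have h2 : (eA ≫ eA - eA) ≫ a = 0 := by
      rw [Preadditive.sub_comp, Category.assoc, ← heA, ← Category.assoc, ← heA]
      simp only [Category.assoc]
      rw [← Category.assoc i, hir, Category.id_comp, sub_self]
    exact sub_eq_zero.1 (huniq _ h2)
  obtain ⟨A₁, j, q, hjq, hqj⟩ := IsIdempotentComplete.idempotents_split A eA hidem
  obtain ⟨Z, b₁, c₁, hT₁⟩ := distinguished_cocone_triangle (j ≫ a ≫ r)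
  obtain ⟨φ, hφ1, hφ2⟩ : ∃ φ : Z ⟶ B, b₁ ≫ φ = i ≫ b ∧ c₁ ≫ j⟦(1 : ℤ)⟧' = φ ≫ c :=
    complete_distinguished_triangle_morphism _ _ hT₁ hT j i (by
    change (j ≫ a ≫ r) ≫ i = j ≫ a
    have h3 : (j ≫ a ≫ r) ≫ i = j ≫ (a ≫ r ≫ i) := by simp only [Category.assoc]
    rw [h3, heA, ← hqj, ← Category.assoc, ← Category.assoc, hjq, Category.id_comp])
  obtain ⟨ψ, hψ1, hψ2⟩ : ∃ ψ : B ⟶ Z, b ≫ ψ = r ≫ b₁ ∧ c ≫ q⟦(1 : ℤ)⟧' = ψ ≫ c₁ :=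
    complete_distinguished_triangle_morphism _ _ hT hT₁ q r (by
    change a ≫ r = q ≫ j ≫ a ≫ r
    have h3 : q ≫ j ≫ a ≫ r = (eA ≫ a) ≫ r := by rw [← hqj]; simp only [Category.assoc]
    rw [h3, ← heA]
    simp only [Category.assoc]
    rw [hir, Category.comp_id])
  -- the composition on `Z` is an isomorphism
  let Φ : Triangle.mk (j ≫ a ≫ r) b₁ c₁ ⟶ Triangle.mk (j ≫ a ≫ r) b₁ c₁ :=
    { hom₁ := 𝟙 _
      hom₂ := 𝟙 _
      hom₃ := φ ≫ ψ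
      comm₁ := by simp
      comm₂ := by
        change b₁ ≫ φ ≫ ψ = 𝟙 _ ≫ b₁
        rw [← Category.assoc, hφ1, Category.assoc, hψ1, ← Category.assoc, hir]
      comm₃ := by
        change c₁ ≫ (𝟙 A₁)⟦(1 : ℤ)⟧' = (φ ≫ ψ) ≫ c₁
        rw [Category.assoc, ← hψ2, ← Category.assoc, ← hφ2, Category.assoc, ← Functor.map_comp,
          hjq] }
  have hiso : IsIso (φ ≫ ψ) :=
    isIso₃_of_isIso₁₂ Φ hT₁ hT₁ (by dsimp [Φ]; infer_instance) (by dsimp [Φ]; infer_instance)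
  exact ⟨A₁, Z, _, b₁, c₁, hT₁, ⟨j, q, hjq⟩, φ, ψ ≫ inv (φ ≫ ψ), by
    rw [← Category.assoc, IsIso.hom_inv_id]⟩

lemma le_retract (t : TStructure C) {X Y : C} {i : X ⟶ Y} {r : Y ⟶ X} (h : i ≫ r = 𝟙 X) {n : ℤ}
    (hY : t.IsLE Y n) : t.IsLE X n := by
  rw [t.isLE_iff_orthogonal n (n + 1) rfl] at hY ⊢
  intro W f hW
  rw [← Category.id_comp f, ← h, Category.assoc, hY W (r ≫ f) hW, comp_zero]

lemma ge_retract (t : TStructure C) {X Y : C} {i : X ⟶ Y} {r : Y ⟶ X} (h : i ≫ r = 𝟙 X) {n : ℤ}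
    (hY : t.IsGE Y n) : t.IsGE X n := by
  rw [t.isGE_iff_orthogonal (n - 1) n (by lia)] at hY ⊢
  intro W f hW
  rw [← Category.comp_id f, ← h, ← Category.assoc, hY W (f ≫ i) hW, zero_comp]

end retract

end Pool.Agent.H255R.TS
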