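import Pool.Agent.H255R.TS.Defs

/-!
# Categories of motives with realisations, and extensions of the base field
-/

open CategoryTheory Limits Pretriangulated Triangulated MonoidalCategory

universe v₁ v₂ u₁ u₂ v u

namespace Pool.Agent.H255R.TS

/-- A triangulated category. -/
structure Tri where
  /-- the objects -/
  Obj : Type u
  [cat : Category.{v} Obj]
  [preadditive : Preadditive Obj]
  [hasZero : HasZeroObject Obj]
  [shift : HasShift Obj ℤ]
  [additive : ∀ n : ℤ, (shiftFunctor Obj n).Additive]
  [pretriangulated : Pretriangulated Obj]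

attribute [instance] Tri.cat Tri.preadditive Tri.hasZero Tri.shift Tri.additive Tri.pretriangulated

/-- A monoidal triangulated category `M` (for the problem: `DM_c(k)`) with triangulated functors
`R l` (the realisations) to triangulated categories `E l` with t-structures (the bounded derived
categories of constructible `l`-adic sheaves on `Spec k`). -/
structure Motives (L : Type) where
  /-- the category of motives -/
  M : Tri.{v₁, u₁}
  [monoidal : MonoidalCategory M.Obj]
  /-- the target of the realisation `l` -/
  E : L → Tri.{v₂, u₂}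
  /-- the standard t-structures -/
  tE : ∀ l, TStructure (E l).Obj
  /-- the realisations -/
  R : ∀ l, M.Obj ⥤ (E l).Obj
  [commShift : ∀ l, (R l).CommShift ℤ]
  [isTriangulated : ∀ l, (R l).IsTriangulated]

attribute [instance] Motives.monoidal Motives.commShift Motives.isTriangulated

variable {L : Type}

/-- There is a t-structure on the category of motives as in the problem: it is non-degenerate,
compatible with the tensor product, and all realisations are t-exact. -/
def Motives.HasMotivicT (m : Motives.{v₁, v₂, u₁, u₂} L) : Prop :=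
  ∃ t : TStructure m.M.Obj, NonDegenerate t ∧ TensorExact t ∧ ∀ l, Exact (m.R l) t (m.tE l)

/-- The base change functors `F` of motives and `S` of `l`-adic sheaves, for an extension of
fields: `F` is faithful, compatible with the tensor product (only: `F (M ⊗ N)` is a direct summand
of `F M ⊗ F N`) and with the realisations, and `S` is t-exact and detects the aisles. -/
structure IsBaseChange (m m' : Motives.{v₁, v₂, u₁, u₂} L) (F : m.M.Obj ⥤ m'.M.Obj)
    (S : ∀ l, (m.E l).Obj ⥤ (m'.E l).Obj) : Prop where
  faithful : ∀ {X Y : m.M.Obj} (f : X ⟶ Y), F.map f = 0 → f = 0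
  tensor : ∀ M N : m.M.Obj, IsSummand (F.obj (M ⊗ N)) (F.obj M ⊗ F.obj N)
  detecting : ∀ l, ExactDetecting (S l) (m.tE l) (m'.tE l)
  commutes : ∀ l, Commutes F (m.R l) (m'.R l) (S l)

/-- The motives over a finite extension `k'` of `k`, with the base change `P` from `k` to `k'` and
the push-forward `Q` from `k'` to `k`, and the corresponding functors for the sheaves (for the
realisation `l₀`). Every motive `M` over `k` is a direct summand of `Q (P M)` (by the trace, the
coefficients being rational). -/
structure Level (m : Motives.{v₁, v₂, u₁, u₂} L) (l₀ : L) where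
  /-- the motives over `k'` -/
  D : Tri.{v₁, u₁}
  /-- the sheaves over `k'` -/
  K : Tri.{v₂, u₂}
  /-- the standard t-structure on the sheaves over `k'` -/
  tK : TStructure K.Obj
  /-- base change of motives from `k` to `k'` -/
  P : m.M.Obj ⥤ D.Obj
  /-- push-forward of motives from `k'` to `k` -/
  Q : D.Obj ⥤ m.M.Obj
  [commShift : Q.CommShift ℤ]
  [isTriangulated : Q.IsTriangulated]
  /-- the realisation over `k'` -/
  RK : D.Obj ⥤ K.Obj
  /-- push-forward of sheaves from `k'` to `k` -/
  TK : K.Obj ⥤ (m.E l₀).Obj
  summand : ∀ M : m.M.Obj, IsSummand M (Q.obj (P.obj M))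
  exact : Exact TK tK (m.tE l₀)
  commutes : Commutes Q RK (m.R l₀) TK

attribute [instance] Level.commShift Level.isTriangulated

/-- Specialisation: for every distinguished triangle `A ⟶ F M ⟶ B ⟶ A[1]` of motives over `K`, where
`M` is a motive over `k`, there are a finite extension `k'` of `k` and a distinguished triangle
`A₀ ⟶ P M ⟶ B₀ ⟶ A₀[1]` of motives over `k'` such that the realisations satisfy: `R A ≤ n` implies
`R A₀ ≤ n`, and `R B ≥ n` implies `R B₀ ≥ n`. (The triangle over `K` comes from a triangle over a smooth
variety `U` over `k` whose function field is contained in `K`, such that the cohomology sheaves of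
the realisations on `U` are locally constant. The triangle over `k'` is its fibre in a closed point
of `U` with residue field `k'`.) -/
def HasSpecialisations {m m' : Motives.{v₁, v₂, u₁, u₂} L} {l₀ : L} (F : m.M.Obj ⥤ m'.M.Obj)
    {I : Type} (lev : I → Level m l₀) : Prop :=
  ∀ (M : m.M.Obj) (A B : m'.M.Obj) (a : A ⟶ F.obj M) (b : F.obj M ⟶ B) (c : B ⟶ A⟦(1 : ℤ)⟧),
    Triangle.mk a b c ∈ distTriang m'.M.Obj →
      ∃ (i : I) (A₀ B₀ : (lev i).D.Obj) (a₀ : A₀ ⟶ (lev i).P.obj M) (b₀ : (lev i).P.obj M ⟶ B₀)
        (c₀ : B₀ ⟶ A₀⟦(1 : ℤ)⟧), Triangle.mk a₀ b₀ c₀ ∈ distTriang (lev i).D.Obj ∧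
          (∀ n : ℤ, (m'.tE l₀).IsLE ((m'.R l₀).obj A) n → (lev i).tK.IsLE ((lev i).RK.obj A₀) n) ∧
          ∀ n : ℤ, (m'.tE l₀).IsGE ((m'.R l₀).obj B) n → (lev i).tK.IsGE ((lev i).RK.obj B₀) n

end Pool.Agent.H255R.TS
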