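import Mathlib.CategoryTheory.Triangulated.TStructure.TruncLTGE
import Mathlib.CategoryTheory.Triangulated.Functor
import Mathlib.CategoryTheory.Idempotents.Basic
import Mathlib.CategoryTheory.Monoidal.Category

/-!
# Motivic t-structures: definitions
-/

open CategoryTheory Limits Pretriangulated Triangulated MonoidalCategory

universe v₁ v₂ v₃ v₄ u₁ u₂ u₃ u₄ w

namespace Pool.Agent.H255R.TS

/-- The object `X` is a direct summand of the object `Y`. -/
def IsSummand {C : Type u₁} [Category.{v₁} C] (X Y : C) : Prop :=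
  ∃ (i : X ⟶ Y) (r : Y ⟶ X), i ≫ r = 𝟙 X

/-- The functor `F` commutes with the functors `R` and `R'` and with `S`, up to isomorphisms of the
objects: `R'(F M) ≅ S(R M)`. -/
def Commutes {C : Type u₁} [Category.{v₁} C] {C' : Type u₂} [Category.{v₂} C'] {E : Type u₃}
    [Category.{v₃} E] {E' : Type u₄} [Category.{v₄} E'] (F : C ⥤ C') (R : C ⥤ E) (R' : C' ⥤ E')
    (S : E ⥤ E') : Prop :=
  ∀ M : C, Nonempty (R'.obj (F.obj M) ≅ S.obj (R.obj M))

section

variable {E : Type u₃} [Category.{v₃} E] [Preadditive E] [HasZeroObject E] [HasShift E ℤ]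
  [∀ n : ℤ, (shiftFunctor E n).Additive] [Pretriangulated E]
  {E' : Type u₄} [Category.{v₄} E'] [Preadditive E'] [HasZeroObject E'] [HasShift E' ℤ]
  [∀ n : ℤ, (shiftFunctor E' n).Additive] [Pretriangulated E']

/-- The functor `S` is t-exact and detects the aisles: `X ≤ n` if and only if `S X ≤ n`, and `X ≥ n`
if and only if `S X ≥ n`. -/
def ExactDetecting (S : E ⥤ E') (t : TStructure E) (t' : TStructure E') : Prop :=
  ∀ (X : E) (n : ℤ), (t.IsLE X n ↔ t'.IsLE (S.obj X) n) ∧ (t.IsGE X n ↔ t'.IsGE (S.obj X) n)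

/-- The functor `S` is t-exact. -/
def Exact (S : E ⥤ E') (t : TStructure E) (t' : TStructure E') : Prop :=
  ∀ (X : E) (n : ℤ), (t.IsLE X n → t'.IsLE (S.obj X) n) ∧ (t.IsGE X n → t'.IsGE (S.obj X) n)

/-- The t-structure `t` is non-degenerate. -/
def NonDegenerate (t : TStructure E) : Prop :=
  (∀ X : E, (∀ n : ℤ, t.IsLE X n) → IsZero X) ∧ ∀ X : E, (∀ n : ℤ, t.IsGE X n) → IsZero X

/-- The t-structure `t` is compatible with the tensor product. -/
def TensorExact [MonoidalCategory E] (t : TStructure E) : Prop :=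
  ∀ X Y : E, (t.IsLE X 0 → t.IsLE Y 0 → t.IsLE (X ⊗ Y) 0) ∧
    (t.IsGE X 0 → t.IsGE Y 0 → t.IsGE (X ⊗ Y) 0)

/-- The functor `S` is conservative: it maps only zero objects to zero objects. -/
def DetectsZero (S : E ⥤ E') : Prop :=
  ∀ X : E, IsZero (S.obj X) → IsZero X

end

end Pool.Agent.H255R.TS
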