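import Pool.Agent.H255R.TS.Core

/-!
# Descent of t-structures
-/

open CategoryTheory Limits Pretriangulated Triangulated

universe v₁ v₂ v₃ v₄ u₁ u₂ u₃ u₄

namespace Pool.Agent.H255R.TS

set_option linter.unusedSectionVars false

variable {C : Type u₁} [Category.{v₁} C] [Preadditive C] [HasZeroObject C] [HasShift C ℤ]
  [∀ n : ℤ, (shiftFunctor C n).Additive] [Pretriangulated C]
  {C' : Type u₂} [Category.{v₂} C'] [Preadditive C'] [HasZeroObject C'] [HasShift C' ℤ]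
  [∀ n : ℤ, (shiftFunctor C' n).Additive] [Pretriangulated C']

section

variable (F : C ⥤ C') (G : C' ⥤ C) (η : 𝟭 C ⟶ F ⋙ G) (ρ : F ⋙ G ⟶ 𝟭 C) (hηρ : η ≫ ρ = 𝟙 _)

include η ρ hηρ

lemma map_zero_of [G.Additive] {X Y : C} (f : X ⟶ Y) (hf : F.map f = 0) : f = 0 := by
  have h1 : η.app Y ≫ ρ.app Y = 𝟙 Y := by
    rw [← NatTrans.comp_app, hηρ]; rfl
  have h2 : f ≫ η.app Y = η.app X ≫ G.map (F.map f) := η.naturality f
  have h3 : f = (f ≫ η.app Y) ≫ ρ.app Y := by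
    rw [Category.assoc, h1]
    exact (Category.comp_id f).symm
  rw [h3, h2, hf, G.map_zero, comp_zero, zero_comp]

end

variable (F : C ⥤ C') [F.CommShift ℤ]

/-- The descended t-structure. -/
lemma exists_descent [IsIdempotentComplete C] (t' : TStructure C')
    (hF : ∀ {X Y : C} (f : X ⟶ Y), F.map f = 0 → f = 0)
    (htr : ∀ M : C, ∃ (A N B : C) (a : A ⟶ N) (b : N ⟶ B) (c : B ⟶ A⟦(1 : ℤ)⟧) (i : M ⟶ N)
      (r : N ⟶ M), Triangle.mk a b c ∈ distTriang C ∧ i ≫ r = 𝟙 M ∧ t'.IsLE (F.obj A) 0 ∧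
        t'.IsGE (F.obj B) 1) :
    ∃ t : TStructure C, (∀ (M : C) (n : ℤ), t.IsLE M n ↔ t'.IsLE (F.obj M) n) ∧
      ∀ (M : C) (n : ℤ), t.IsGE M n ↔ t'.IsGE (F.obj M) n := by
  have hzero : ∀ {X Y : C} (f : X ⟶ Y) {n₀ n₁ : ℤ}, n₀ < n₁ → t'.IsLE (F.obj X) n₀ →
      t'.IsGE (F.obj Y) n₁ → f = 0 := fun f n₀ n₁ h hX hY =>
    hF f (t'.zero_of_isLE_of_isGE _ n₀ n₁ h hX hY)
  let t : TStructure C :=
    { le := fun n => (t'.le n).inverseImage F
      ge := fun n => (t'.ge n).inverseImage F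
      le_shift := fun n a n' h X hX =>
        (t'.le n').prop_of_iso ((F.commShiftIso a).app X).symm (t'.le_shift n a n' h _ hX)
      ge_shift := fun n a n' h X hX =>
        (t'.ge n').prop_of_iso ((F.commShiftIso a).app X).symm (t'.ge_shift n a n' h _ hX)
      zero' := fun X Y f hX hY => hzero f (by norm_num : (0 : ℤ) < 1) ⟨hX⟩ ⟨hY⟩
      le_zero_le := fun X hX => t'.le_zero_le _ hX
      ge_one_le := fun X hX => t'.ge_one_le _ hX
      exists_triangle_zero_one := by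
        intro M
        obtain ⟨A, N, B, a, b, c, i, r, hT', hir, hA', hB'⟩ := htr M
        obtain ⟨A₁, Z, a₁, b₁, c₁, h₁, ⟨j, q, hjq⟩, ⟨j', q', hjq'⟩⟩ :=
          trunc_retract hT' (i := i) (r := r) hir
            (fun f => hzero f (by norm_num : (0 : ℤ) < 1) hA' hB')
            (fun f => hzero f (by norm_num : (0 : ℤ) < 2) hA'
              (by
                have h5 : t'.IsGE ((F ⋙ shiftFunctor C' (-1 : ℤ)).obj B) 2 :=
                  t'.isGE_shift (F.obj B) 1 (-1) 2 (by norm_num)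
                exact t'.isGE_of_iso ((F.commShiftIso (-1 : ℤ)).app B).symm 2))
        refine ⟨A₁, Z, ?_, ?_, a₁, b₁, c₁, h₁⟩
        · have h2 : F.map j ≫ F.map q = 𝟙 _ := by rw [← F.map_comp, hjq, F.map_id]
          exact (le_retract t' h2 hA').le
        · have h2 : F.map j' ≫ F.map q' = 𝟙 _ := by rw [← F.map_comp, hjq', F.map_id]
          exact (ge_retract t' h2 hB').ge }
  exact ⟨t, fun M n => ⟨fun h => ⟨h.le⟩, fun h => ⟨h.le⟩⟩, fun M n => ⟨fun h => ⟨h.ge⟩, fun h => ⟨h.ge⟩⟩⟩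

end Pool.Agent.H255R.TS
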