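import Pool.Agent.H255R.TS.Descent
import Pool.Agent.H255R.TS.Defs

/-!
# Motivic t-structures and finite extensions
-/

open CategoryTheory Limits Pretriangulated Triangulated MonoidalCategory

universe v₁ v₂ v₃ v₄ u₁ u₂ u₃ u₄ w

namespace Pool.Agent.H255R.TS

set_option linter.unusedSectionVars false

section reflect

variable {C : Type u₁} [Category.{v₁} C] [Preadditive C] [HasZeroObject C] [HasShift C ℤ]
  [∀ n : ℤ, (shiftFunctor C n).Additive] [Pretriangulated C]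
  {E : Type u₃} [Category.{v₃} E] [Preadditive E] [HasZeroObject E] [HasShift E ℤ]
  [∀ n : ℤ, (shiftFunctor E n).Additive] [Pretriangulated E]
  (t : TStructure C) (tE : TStructure E) (R : C ⥤ E) [R.CommShift ℤ] [R.IsTriangulated]

lemma detecting (hR : Exact R t tE) (hc : DetectsZero R) : ExactDetecting R t tE := by
  intro M n
  refine ⟨⟨(hR M n).1, fun h => ?_⟩, ⟨(hR M n).2, fun h => ?_⟩⟩
  · obtain ⟨X, Y, hX, hY, f, g, d, hT⟩ := t.exists_triangle M n (n + 1) rfl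
    have hT' := R.map_distinguished _ hT
    have h1 : tE.IsLE (R.obj X) n := (hR X n).1 ⟨hX⟩
    have h2 : tE.IsGE (R.obj Y) (n + 1) := (hR Y (n + 1)).2 ⟨hY⟩
    have h3 : tE.IsLE (R.obj Y) n := by
      refine tE.isLE₂ _ (rot_of_distTriang _ hT') n h ?_
      have h6 : tE.IsLE ((R.obj X)⟦(1 : ℤ)⟧) (n - 1) := tE.isLE_shift (R.obj X) n 1 (n - 1) (by lia)
      have h7 : tE.IsLE ((R.obj X)⟦(1 : ℤ)⟧) n := tE.isLE_of_le _ (n - 1) n (by lia)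
      exact h7
    have h4 : IsZero (R.obj Y) := tE.isZero (R.obj Y) n (n + 1) (by lia)
    have h5 : IsZero Y := hc Y h4
    exact t.isLE₂ _ hT n ⟨hX⟩ (t.isLE_of_isZero h5 n)
  · obtain ⟨X, Y, hX, hY, f, g, d, hT⟩ := t.exists_triangle M (n - 1) n (by lia)
    have hT' := R.map_distinguished _ hT
    have h1 : tE.IsLE (R.obj X) (n - 1) := (hR X (n - 1)).1 ⟨hX⟩
    have h2 : tE.IsGE (R.obj Y) n := (hR Y n).2 ⟨hY⟩
    have h3 : tE.IsGE (R.obj X) n := by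
      refine tE.isGE₂ _ (inv_rot_of_distTriang _ hT') n ?_ h
      have h6 : tE.IsGE ((R.obj Y)⟦(-1 : ℤ)⟧) (n + 1) :=
        tE.isGE_shift (R.obj Y) n (-1) (n + 1) (by lia)
      have h7 : tE.IsGE ((R.obj Y)⟦(-1 : ℤ)⟧) n := tE.isGE_of_ge _ n (n + 1) (by lia)
      exact h7
    have h4 : IsZero (R.obj X) := tE.isZero (R.obj X) (n - 1) n (by lia)
    have h5 : IsZero X := hc X h4
    exact t.isGE₂ _ hT n (t.isGE_of_isZero h5 n) ⟨hY⟩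

end reflect

section transfer

variable {C : Type u₁} [Category.{v₁} C] [Preadditive C] [HasZeroObject C] [HasShift C ℤ]
  [∀ n : ℤ, (shiftFunctor C n).Additive] [Pretriangulated C] [MonoidalCategory C]
  {C' : Type u₁} [Category.{v₁} C'] [Preadditive C'] [HasZeroObject C'] [HasShift C' ℤ]
  [∀ n : ℤ, (shiftFunctor C' n).Additive] [Pretriangulated C'] [MonoidalCategory C']
  {I : Type} (D : I → Type u₁) [∀ i, Category.{v₁} (D i)] [∀ i, Preadditive (D i)]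
  [∀ i, HasZeroObject (D i)] [∀ i, HasShift (D i) ℤ]
  [∀ i, ∀ n : ℤ, (shiftFunctor (D i) n).Additive] [∀ i, Pretriangulated (D i)]
  {L : Type} (E : L → Type u₂) [∀ l, Category.{v₂} (E l)] [∀ l, Preadditive (E l)]
  [∀ l, HasZeroObject (E l)] [∀ l, HasShift (E l) ℤ]
  [∀ l, ∀ n : ℤ, (shiftFunctor (E l) n).Additive] [∀ l, Pretriangulated (E l)]
  (E' : L → Type u₂) [∀ l, Category.{v₂} (E' l)] [∀ l, Preadditive (E' l)]
  [∀ l, HasZeroObject (E' l)] [∀ l, HasShift (E' l) ℤ]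
  [∀ l, ∀ n : ℤ, (shiftFunctor (E' l) n).Additive] [∀ l, Pretriangulated (E' l)]
  (K : I → Type u₂) [∀ i, Category.{v₂} (K i)] [∀ i, Preadditive (K i)]
  [∀ i, HasZeroObject (K i)] [∀ i, HasShift (K i) ℤ]
  [∀ i, ∀ n : ℤ, (shiftFunctor (K i) n).Additive] [∀ i, Pretriangulated (K i)]

/-- Descent along an extension. -/
lemma transfer [IsIdempotentComplete C] (tE : ∀ l, TStructure (E l))
    (tE' : ∀ l, TStructure (E' l)) (tK : ∀ i, TStructure (K i)) (R : ∀ l, C ⥤ E l)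
    (R' : ∀ l, C' ⥤ E' l) [∀ l, (R' l).CommShift ℤ] [∀ l, (R' l).IsTriangulated]
    (F : C ⥤ C') [F.CommShift ℤ] (hfaith : ∀ {X Y : C} (f : X ⟶ Y), F.map f = 0 → f = 0)
    (hF : ∀ M N : C, IsSummand (F.obj (M ⊗ N)) (F.obj M ⊗ F.obj N))
    (S : ∀ l, E l ⥤ E' l) (hS : ∀ l, ExactDetecting (S l) (tE l) (tE' l))
    (hFS : ∀ l, Commutes F (R l) (R' l) (S l)) (l₀ : L)
    (P : ∀ i, C ⥤ D i) (Q : ∀ i, D i ⥤ C) [∀ i, (Q i).CommShift ℤ] [∀ i, (Q i).IsTriangulated]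
    (hPQ : ∀ i, ∀ M : C, IsSummand M ((Q i).obj ((P i).obj M)))
    (RK : ∀ i, D i ⥤ K i) (TK : ∀ i, K i ⥤ E l₀) (hTK : ∀ i, Exact (TK i) (tK i) (tE l₀))
    (hQT : ∀ i, Commutes (Q i) (RK i) (R l₀) (TK i))
    (hcont : ∀ (M : C) (A B : C') (a : A ⟶ F.obj M) (b : F.obj M ⟶ B) (c : B ⟶ A⟦(1 : ℤ)⟧),
      Triangle.mk a b c ∈ distTriang C' → ∃ (i : I) (A₀ B₀ : D i) (a₀ : A₀ ⟶ (P i).obj M)
        (b₀ : (P i).obj M ⟶ B₀) (c₀ : B₀ ⟶ A₀⟦(1 : ℤ)⟧), Triangle.mk a₀ b₀ c₀ ∈ distTriang (D i) ∧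
          (∀ n : ℤ, (tE' l₀).IsLE ((R' l₀).obj A) n → (tK i).IsLE ((RK i).obj A₀) n) ∧
          ∀ n : ℤ, (tE' l₀).IsGE ((R' l₀).obj B) n → (tK i).IsGE ((RK i).obj B₀) n)
    (hc : DetectsZero (R' l₀)) (t' : TStructure C') (h1 : NonDegenerate t')
    (h2 : TensorExact t') (h3 : ∀ l, Exact (R' l) t' (tE' l)) :
    ∃ t : TStructure C, NonDegenerate t ∧ TensorExact t ∧ ∀ l, Exact (R l) t (tE l) := by
  have hd := detecting t' (tE' l₀) (R' l₀) (h3 l₀) hc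
  have hLE : ∀ (i : I) (A₀ : D i) (n : ℤ), (tK i).IsLE ((RK i).obj A₀) n →
      t'.IsLE (F.obj ((Q i).obj A₀)) n := by
    intro i A₀ n hA
    rw [(hd _ _).1]
    obtain ⟨e⟩ := hFS l₀ ((Q i).obj A₀)
    obtain ⟨e'⟩ := hQT i A₀
    have h7 := (hTK i _ n).1 hA
    have h8 : (tE l₀).IsLE ((R l₀).obj ((Q i).obj A₀)) n := (tE l₀).isLE_of_iso e'.symm n
    have h9 := ((hS l₀ _ n).1).1 h8
    exact (tE' l₀).isLE_of_iso e.symm n
  have hGE : ∀ (i : I) (A₀ : D i) (n : ℤ), (tK i).IsGE ((RK i).obj A₀) n →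
      t'.IsGE (F.obj ((Q i).obj A₀)) n := by
    intro i A₀ n hA
    rw [(hd _ _).2]
    obtain ⟨e⟩ := hFS l₀ ((Q i).obj A₀)
    obtain ⟨e'⟩ := hQT i A₀
    have h7 := (hTK i _ n).2 hA
    have h8 : (tE l₀).IsGE ((R l₀).obj ((Q i).obj A₀)) n := (tE l₀).isGE_of_iso e'.symm n
    have h9 := ((hS l₀ _ n).2).1 h8
    exact (tE' l₀).isGE_of_iso e.symm n
  obtain ⟨t, ht1, ht2⟩ := exists_descent F t' hfaith (by
    intro M
    obtain ⟨A, B, hA, hB, a, b, c, hT⟩ := t'.exists_triangle_zero_one (F.obj M)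
    obtain ⟨i, A₀, B₀, a₀, b₀, c₀, hT₀, eA, eB⟩ := hcont M A B a b c hT
    obtain ⟨j, r, hjr⟩ := hPQ i M
    exact ⟨_, _, _, _, _, _, j, r, (Q i).map_distinguished _ hT₀, hjr,
      hLE i A₀ 0 (eA 0 ((h3 l₀ A 0).1 ⟨hA⟩)), hGE i B₀ 1 (eB 1 ((h3 l₀ B 1).2 ⟨hB⟩))⟩)
  have hz : ∀ M : C, IsZero (F.obj M) → IsZero M := by
    intro M hM
    rw [IsZero.iff_id_eq_zero] at hM ⊢
    exact hfaith _ (by rw [F.map_id, hM])
  refine ⟨t, ⟨fun M hM => hz M (h1.1 _ fun n => (ht1 M n).1 (hM n)),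
    fun M hM => hz M (h1.2 _ fun n => (ht2 M n).1 (hM n))⟩, fun M N => ⟨fun hM hN => ?_,
    fun hM hN => ?_⟩, fun l M n => ⟨fun hM => ?_, fun hM => ?_⟩⟩
  · obtain ⟨i, r, hir⟩ := hF M N
    exact (ht1 _ _).2 (le_retract t' hir ((h2 _ _).1 ((ht1 _ _).1 hM) ((ht1 _ _).1 hN)))
  · obtain ⟨i, r, hir⟩ := hF M N
    exact (ht2 _ _).2 (ge_retract t' hir ((h2 _ _).2 ((ht2 _ _).1 hM) ((ht2 _ _).1 hN)))
  · obtain ⟨e⟩ := hFS l M
    have h4 := (h3 l _ n).1 ((ht1 M n).1 hM)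
    exact ((hS l _ n).1).2 ((tE' l).isLE_of_iso e n)
  · obtain ⟨e⟩ := hFS l M
    have h4 := (h3 l _ n).2 ((ht2 M n).1 hM)
    exact ((hS l _ n).2).2 ((tE' l).isGE_of_iso e n)

end transfer

end Pool.Agent.H255R.TS
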